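import Mathlib
import Pool.Agent.W662.CB.Stmts

/-!
# CB-B8: almost centralizing coefficients
-/

set_option autoImplicit false

open MeasureTheory Filter Topology Complex
open scoped InnerProductSpace ENNReal

namespace Pool.Agent.W681.CB

open Pool.Agent.W662.CB

section

variable {H K : Type} [NormedAddCommGroup H] [InnerProductSpace ℂ H] [CompleteSpace H]
  [NormedAddCommGroup K] [InnerProductSpace ℂ K] [CompleteSpace K]

theorem star_E_real {U : ℝ → H →L[ℂ] H} {κ : (H →L[ℂ] H) →⋆ₐ[ℂ] (K →L[ℂ] K)} {V : ℝ → K →L[ℂ] K}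
    {J : H →L[ℂ] K} {E : ℂ → K →L[ℂ] K} {T δ : ℝ} (hB : BoxP U κ V J E T δ) (t : ℝ) :
    star (E (t : ℂ)) = E ((-t : ℝ) : ℂ) := by
  rw [hB.E_star, Complex.conj_ofReal]
  push_cast
  rfl

theorem bessel {U : ℝ → H →L[ℂ] H} {κ : (H →L[ℂ] H) →⋆ₐ[ℂ] (K →L[ℂ] K)} {V : ℝ → K →L[ℂ] K}
    {J : H →L[ℂ] K} {E : ℂ → K →L[ℂ] K} {T δ : ℝ} (hB : BoxP U κ V J E T δ) (hE : ‖E 0‖ ≤ 1)
    (F : Finset ℤ) (u : K) :
    ∑ m ∈ F, ‖ContinuousLinearMap.adjoint J (E ((-((m : ℝ) * T) : ℝ) : ℂ) u)‖ ^ 2 ≤ ‖u‖ ^ 2 := by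
  have h1 := hB.compl u
  have h2 := Complex.reCLM.hasSum ((innerSL ℂ u).hasSum h1)
  have h3 : ∀ m : ℤ, Complex.reCLM ((innerSL ℂ u) (E (((m : ℝ) * T : ℝ) : ℂ)
      (J (ContinuousLinearMap.adjoint J (E ((-((m : ℝ) * T) : ℝ) : ℂ) u))))) =
      ‖ContinuousLinearMap.adjoint J (E ((-((m : ℝ) * T) : ℝ) : ℂ) u)‖ ^ 2 := by
    intro m
    set w := ContinuousLinearMap.adjoint J (E ((-((m : ℝ) * T) : ℝ) : ℂ) u) with hw
    have e1 : (innerSL ℂ u) (E (((m : ℝ) * T : ℝ) : ℂ) (J w)) = ⟪w, w⟫_ℂ := by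
      rw [innerSL_apply_apply, ← ContinuousLinearMap.adjoint_inner_left,
        ← ContinuousLinearMap.star_eq_adjoint, star_E_real hB,
        ← ContinuousLinearMap.adjoint_inner_left]
    rw [e1, inner_self_eq_norm_sq_to_K]
    show ((((‖w‖ : ℝ) : ℂ)) ^ 2).re = ‖w‖ ^ 2
    rw [← Complex.ofReal_pow, Complex.ofReal_re]
  have h4 : HasSum (fun m : ℤ => ‖ContinuousLinearMap.adjoint J
      (E ((-((m : ℝ) * T) : ℝ) : ℂ) u)‖ ^ 2) (Complex.reCLM ((innerSL ℂ u) (E 0 u))) := by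
    have e : (fun m : ℤ => ‖ContinuousLinearMap.adjoint J
      (E ((-((m : ℝ) * T) : ℝ) : ℂ) u)‖ ^ 2) = fun m : ℤ => Complex.reCLM ((innerSL ℂ u)
      (E (((m : ℝ) * T : ℝ) : ℂ) (J (ContinuousLinearMap.adjoint J
        (E ((-((m : ℝ) * T) : ℝ) : ℂ) u))))) := funext fun m => (h3 m).symm
    rw [e]
    exact h2
  refine (sum_le_hasSum F (fun m _ => by positivity) h4).trans ?_
  refine (Complex.re_le_norm _).trans ?_
  rw [innerSL_apply_apply]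
  refine (norm_inner_le_norm _ _).trans ?_
  have h5 : ‖E 0 u‖ ≤ ‖u‖ := by
    have := (E 0).le_of_opNorm_le hE u
    rwa [one_mul] at this
  calc ‖u‖ * ‖E 0 u‖ ≤ ‖u‖ * ‖u‖ := mul_le_mul_of_nonneg_left h5 (norm_nonneg _)
    _ = ‖u‖ ^ 2 := by ring

theorem norm_D {U : ℝ → H →L[ℂ] H} {κ : (H →L[ℂ] H) →⋆ₐ[ℂ] (K →L[ℂ] K)} {V : ℝ → K →L[ℂ] K}
    {J : H →L[ℂ] K} {E : ℂ → K →L[ℂ] K} {T δ : ℝ} (hB : BoxP U κ V J E T δ) (hE : ‖E 0‖ ≤ 1)
    (Y : K →L[ℂ] K) (hY1 : E 0 * Y = Y) (hY2 : Y * E 0 = Y) (hY : ‖Y‖ ≤ 1) :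
    ‖Y - E I * Y * E (-I)‖ ≤ 3 * δ := by
  have e : Y - E I * Y * E (-I) = (E 0 - E I) * Y + E I * Y * (E 0 - E (-I)) := by
    rw [sub_mul, mul_sub, hY1, mul_assoc (E I) Y (E 0), hY2]
    abel
  rw [e]
  have h1 : ‖E 0 - E I‖ ≤ δ := by rw [norm_sub_rev]; exact hB.nE2
  have h2 : ‖E 0 - E (-I)‖ ≤ δ := by rw [norm_sub_rev]; exact hB.nE1
  have h3 : ‖E I‖ ≤ 1 + δ := by
    calc ‖E I‖ = ‖E 0 + (E I - E 0)‖ := by congr 1; abel
      _ ≤ ‖E 0‖ + ‖E I - E 0‖ := norm_add_le _ _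
      _ ≤ 1 + δ := add_le_add hE hB.nE2
  have hδ := hB.δ_nonneg
  have hδ1 := hB.δ_le
  have h4 : ‖(E 0 - E I) * Y‖ ≤ δ * 1 := (norm_mul_le _ _).trans
    (mul_le_mul h1 hY (norm_nonneg _) hδ)
  have h5 : ‖E I * Y * (E 0 - E (-I))‖ ≤ (1 + δ) * 1 * δ := (norm_mul_le _ _).trans
    (mul_le_mul ((norm_mul_le _ _).trans (mul_le_mul h3 hY (norm_nonneg _) (by linarith))) h2
      (norm_nonneg _) (by linarith))
  have h6 := norm_add_le ((E 0 - E I) * Y) (E I * Y * (E 0 - E (-I)))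
  nlinarith

theorem norm_U_le {M : VonNeumannAlgebra H} {ξ : H} {U : ℝ → H →L[ℂ] H} (hM : IsModular M ξ U)
    (t : ℝ) (v : H) : ‖U t v‖ = ‖v‖ := by
  have h1 : star (U t) * U t = 1 := by
    rw [hM.star_eq, ← hM.add, neg_add_cancel, hM.zero]
  have h2 : ‖U t v‖ ^ 2 = ‖v‖ ^ 2 := by
    have e1 : ⟪U t v, U t v⟫_ℂ = ⟪v, v⟫_ℂ := by
      rw [← ContinuousLinearMap.adjoint_inner_left, ← ContinuousLinearMap.star_eq_adjoint]
      have e2 : star (U t) (U t v) = v := by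
        have := congrArg (fun S : H →L[ℂ] H => S v) h1
        exact this
      rw [e2]
    have e3 := congrArg Complex.re e1
    rw [inner_self_eq_norm_sq_to_K, inner_self_eq_norm_sq_to_K] at e3
    exact_mod_cast e3
  exact (pow_left_inj₀ (norm_nonneg _) (norm_nonneg _) two_ne_zero).1 h2

end

theorem aff_mono {H K : Type} [NormedAddCommGroup H] [InnerProductSpace ℂ H] [CompleteSpace H]
    [NormedAddCommGroup K] [InnerProductSpace ℂ K] [CompleteSpace K]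
    (M N : VonNeumannAlgebra H) (hle : ∀ x : H →L[ℂ] H, x ∈ N → x ∈ M)
    (κ : (H →L[ℂ] H) →⋆ₐ[ℂ] (K →L[ℂ] K)) (V : ℝ → K →L[ℂ] K) (X : K →L[ℂ] K)
    (h : Aff N κ V X) : Aff M κ V X := by
  refine ⟨h.1, fun y hy => h.2 y ?_⟩
  rw [VonNeumannAlgebra.mem_commutant_iff] at hy ⊢
  exact fun g hg => hy g (hle g hg)

theorem b8 (h1 : S_B1) (h2 : S_B2) (h3 : S_B3) : S_B8 := by
  intro H K _ _ _ _ _ _ M N ξ U κ V J E T δ hS hB Y hY hpY hYn
  obtain ⟨b1, b2, b3, b4, b5, b6, b7, b8, b9⟩ := h1 H K M ξ U κ V J E T δ hS.modular hB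
  have hE0 : ‖E 0‖ ≤ 1 := by
    have := b4 0
    rwa [Complex.ofReal_zero] at this
  have hEE : ∀ z w : ℂ, E z * E w = E w * E z := fun z w => by
    rw [← hB.E_add, ← hB.E_add, add_comm]
  have hpp : E 0 * E 0 = E 0 := by rw [← hB.E_add, add_zero]
  have hY1 : E 0 * Y = Y := by
    conv_lhs => rw [← hpY]
    rw [← mul_assoc, ← mul_assoc, hpp]
    exact hpY
  have hY2 : Y * E 0 = Y := by
    conv_lhs => rw [← hpY]
    rw [mul_assoc, hpp]
    exact hpY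
  have hstar0 : star (E 0) = E 0 := by
    rw [hB.E_star]; simp
  have hY1' : E 0 * star Y = star Y := by
    have := congrArg star hY2
    rwa [star_mul, hstar0] at this
  have hY2' : star Y * E 0 = star Y := by
    have := congrArg star hY1
    rwa [star_mul, hstar0] at this
  have hYn' : ‖star Y‖ ≤ 1 := by rw [norm_star]; exact hYn
  have hD := norm_D hB hE0 Y hY1 hY2 hYn
  have hD' := norm_D hB hE0 (star Y) hY1' hY2' hYn'
  set D := Y - E I * Y * E (-I) with hDdef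
  set D' := star Y - E I * star Y * E (-I) with hD'def
  have hJ : ‖J ξ‖ = 1 := by rw [b5, hS.unit]
  have hδ := hB.δ_nonneg
  have hDξ : ‖D (J ξ)‖ ^ 2 ≤ (3 * δ) ^ 2 := by
    have := D.le_of_opNorm_le hD (J ξ)
    rw [hJ, mul_one] at this
    exact pow_le_pow_left₀ (norm_nonneg _) this 2
  have hD'ξ : ‖D' (J ξ)‖ ^ 2 ≤ (3 * δ) ^ 2 := by
    have := D'.le_of_opNorm_le hD' (J ξ)
    rw [hJ, mul_one] at this
    exact pow_le_pow_left₀ (norm_nonneg _) this 2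
  -- affiliation
  have hX : ∀ m : ℤ, Aff M κ V (E ((-((m : ℝ) * T) : ℝ) : ℂ) * Y) := by
    intro m
    have h := ((h2 H K N U κ V J E T δ hB Y hY).2.2) ((-((m : ℝ) * T) : ℝ) : ℂ) 0
    rw [mul_assoc, hY2] at h
    exact aff_mono M N hS.le κ V _ h
  have hXs : ∀ m : ℤ, Aff M κ V (star (E ((-((m : ℝ) * T) : ℝ) : ℂ) * Y)) := fun m =>
    (h2 H K M U κ V J E T δ hB _ (hX m)).2.1
  have hYs : Aff M κ V (star Y) :=
    (h2 H K M U κ V J E T δ hB _ (aff_mono M N hS.le κ V _ hY)).2.1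
  have hslstar : ∀ X : K →L[ℂ] K, star (sl J X) = sl J (star X) := by
    intro X
    unfold sl
    rw [ContinuousLinearMap.star_eq_adjoint, ContinuousLinearMap.star_eq_adjoint,
      ContinuousLinearMap.adjoint_comp, ContinuousLinearMap.adjoint_comp,
      ContinuousLinearMap.adjoint_adjoint, ContinuousLinearMap.comp_assoc]
  refine ⟨fun m => sl J (E I * (E ((-((m : ℝ) * T) : ℝ) : ℂ) * Y) * E (-I)),
    fun m => sl J (E I * star (E ((-((m : ℝ) * T) : ℝ) : ℂ) * Y) * E (-I)),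
    fun m => (h3 H K M ξ U κ V J E T δ hS.modular hB _ (hX m)).2, fun m => ?_, fun F => ?_,
    fun F => ?_⟩
  · unfold cf
    rw [hslstar]
    exact (h3 H K M ξ U κ V J E T δ hS.modular hB _ (hXs m)).2
  · have hterm : ∀ m : ℤ, (cf J E T Y m - sl J (E I * (E ((-((m : ℝ) * T) : ℝ) : ℂ) * Y) * E (-I))) ξ
        = ContinuousLinearMap.adjoint J (E ((-((m : ℝ) * T) : ℝ) : ℂ) (D (J ξ))) := by
      intro m
      have e : E ((-((m : ℝ) * T) : ℝ) : ℂ) * Y - E I * (E ((-((m : ℝ) * T) : ℝ) : ℂ) * Y) * E (-I)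
          = E ((-((m : ℝ) * T) : ℝ) : ℂ) * D := by
        rw [hDdef, mul_sub, ← mul_assoc (E I), hEE I, mul_assoc, mul_assoc, mul_assoc]
      have e2 : (cf J E T Y m - sl J (E I * (E ((-((m : ℝ) * T) : ℝ) : ℂ) * Y) * E (-I))) ξ =
          ContinuousLinearMap.adjoint J ((E ((-((m : ℝ) * T) : ℝ) : ℂ) * Y -
            E I * (E ((-((m : ℝ) * T) : ℝ) : ℂ) * Y) * E (-I)) (J ξ)) := by
        simp only [cf, sl, ContinuousLinearMap.sub_apply, ContinuousLinearMap.comp_apply, map_sub]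
      rw [e2, e]
      rfl
    calc ∑ m ∈ F, ‖(cf J E T Y m - sl J (E I * (E ((-((m : ℝ) * T) : ℝ) : ℂ) * Y) * E (-I))) ξ‖ ^ 2
        = ∑ m ∈ F, ‖ContinuousLinearMap.adjoint J (E ((-((m : ℝ) * T) : ℝ) : ℂ) (D (J ξ)))‖ ^ 2 :=
          Finset.sum_congr rfl (fun m _ => by rw [hterm])
      _ ≤ ‖D (J ξ)‖ ^ 2 := bessel hB hE0 F _
      _ ≤ (3 * δ) ^ 2 := hDξ
  · have hcomm : ∀ t : ℝ, D' * V t = V t * D' := by
      intro t
      rw [hD'def, sub_mul, mul_sub, hYs.1 t, mul_assoc (E I * star Y), ← hB.V_E,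
        ← mul_assoc (E I * star Y), mul_assoc (E I), hYs.1 t, ← mul_assoc (E I), ← hB.V_E,
        mul_assoc, mul_assoc, mul_assoc]
    have hpD' : E 0 * D' = D' := by
      rw [hD'def, mul_sub, hY1', ← mul_assoc, ← mul_assoc, ← hB.E_add, zero_add]
    have hterm : ∀ m : ℤ, ‖(star (cf J E T Y m) -
        sl J (E I * star (E ((-((m : ℝ) * T) : ℝ) : ℂ) * Y) * E (-I))) ξ‖ =
        ‖ContinuousLinearMap.adjoint J (E (((m : ℝ) * T : ℝ) : ℂ) (D' (J ξ)))‖ := by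
      intro m
      set s : ℝ := (m : ℝ) * T with hs
      have es : star (E ((-s : ℝ) : ℂ) * Y) = star Y * E (s : ℂ) := by
        rw [star_mul, star_E_real hB, neg_neg]
      have e : star (E ((-s : ℝ) : ℂ) * Y) - E I * star (E ((-s : ℝ) : ℂ) * Y) * E (-I)
          = D' * E (s : ℂ) := by
        rw [es, hD'def, sub_mul, mul_assoc (E I * star Y), hEE (-I), ← mul_assoc, ← mul_assoc]
      have e2 : (star (cf J E T Y m) - sl J (E I * star (E ((-s : ℝ) : ℂ) * Y) * E (-I))) ξ =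
          ContinuousLinearMap.adjoint J ((star (E ((-s : ℝ) : ℂ) * Y) -
            E I * star (E ((-s : ℝ) : ℂ) * Y) * E (-I)) (J ξ)) := by
        unfold cf
        rw [hslstar]
        simp only [sl, ContinuousLinearMap.sub_apply, ContinuousLinearMap.comp_apply, map_sub, ← hs]
      rw [e2, e]
      have e3 : (D' * E (s : ℂ)) (J ξ) = V s (E ((-s : ℝ) : ℂ) (E (s : ℂ) (D' (J ξ)))) := by
        have e4 : E ((-s : ℝ) : ℂ) (E (s : ℂ) (D' (J ξ))) = D' (J ξ) := by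
          have e5 : E ((-s : ℝ) : ℂ) * E (s : ℂ) = E 0 := by
            rw [← hB.E_add]; congr 1; push_cast; ring
          have e6 : E ((-s : ℝ) : ℂ) (E (s : ℂ) (D' (J ξ))) = (E 0 * D') (J ξ) := by
            rw [← e5]; rfl
          rw [e6, hpD']
        rw [e4]
        have e7 : (D' * E (s : ℂ)) (J ξ) = (D' * V s) (J ξ) := by
          show D' (E (s : ℂ) (J ξ)) = D' (V s (J ξ))
          rw [b1]
        rw [e7, hcomm]
        rfl
      rw [e3, ← b2 s (E (s : ℂ) (D' (J ξ))), norm_U_le hS.modular]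
    calc ∑ m ∈ F, ‖(star (cf J E T Y m) -
          sl J (E I * star (E ((-((m : ℝ) * T) : ℝ) : ℂ) * Y) * E (-I))) ξ‖ ^ 2
        = ∑ m ∈ F, ‖ContinuousLinearMap.adjoint J (E (((m : ℝ) * T : ℝ) : ℂ) (D' (J ξ)))‖ ^ 2 :=
          Finset.sum_congr rfl (fun m _ => by rw [hterm])
      _ = ∑ m ∈ F.map (Equiv.neg ℤ).toEmbedding,
          ‖ContinuousLinearMap.adjoint J (E ((-((m : ℝ) * T) : ℝ) : ℂ) (D' (J ξ)))‖ ^ 2 := by
          rw [Finset.sum_map]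
          refine Finset.sum_congr rfl (fun m _ => ?_)
          have e : (-((((Equiv.neg ℤ).toEmbedding m : ℤ) : ℝ) * T) : ℝ) = (m : ℝ) * T := by
            show (-((((-m : ℤ)) : ℝ) * T) : ℝ) = (m : ℝ) * T
            push_cast; ring
          rw [e]
      _ ≤ ‖D' (J ξ)‖ ^ 2 := bessel hB hE0 _ _
      _ ≤ (3 * δ) ^ 2 := hD'ξ

end Pool.Agent.W681.CB
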